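import Pool.Agent.H.MP_1ac54c_co.B

set_option autoImplicit false

namespace Pool.Agent.Results.MP_1ac54c_co.Wilf

open Pool.Agent.H.MP_1ac54c_co

theorem result : ∀ (j : Fin 3) (n : ℕ),
    av n ![1, 2, 3, 4] j = av n ![1, 2, 4, 3] j ∧ av n ![1, 2, 4, 3] j = av n ![2, 1, 4, 3] j :=
  fun j n => main n j

end Pool.Agent.Results.MP_1ac54c_co.Wilf
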